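import Pool.Agent.MP_761c50_ag.Mono

/-! The containments `J^(2r-1) ⊆ J^r` for the reflection arrangements of the monomial groups
`G(m,p,n)` and of their products, in every rank and for every `r`. -/

namespace Pool.Agent.Results.MP_761c50_ag.Monomial

open MvPolynomial

/-- `P_Y`: the ideal generated by the linear forms vanishing on `Y`. -/
noncomputable def P {l : ℕ} (Y : Set (Fin l → ℂ)) : Ideal (MvPolynomial (Fin l) ℂ) :=
  Ideal.span {f | f.IsHomogeneous 1 ∧ ∀ y ∈ Y, eval y f = 0}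

/-- `L_2(A)`: the intersections of two different hyperplanes of `A`. -/
def L2 {l : ℕ} (A : Set (Set (Fin l → ℂ))) : Set (Set (Fin l → ℂ)) :=
  {Y | ∃ H ∈ A, ∃ H' ∈ A, H ≠ H' ∧ Y = H ∩ H'}

/-- The ideal `J(A)` of the singular locus. -/
noncomputable def J {l : ℕ} (A : Set (Set (Fin l → ℂ))) : Ideal (MvPolynomial (Fin l) ℂ) :=
  ⨅ Y ∈ L2 A, P Y

/-- The symbolic power `J(A)^(n)`. -/
noncomputable def symb {l : ℕ} (A : Set (Set (Fin l → ℂ))) (n : ℕ) :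
    Ideal (MvPolynomial (Fin l) ℂ) :=
  ⨅ Y ∈ L2 A, P Y ^ n

/-- The coordinate `i` lies in block `b i`. Hyperplanes: `y i = ζ y j` for `i ≠ j` in one block `B`
and `ζ ^ m B = 1`, and `y i = 0` for `i` in a block `B ∈ T`. -/
def arr {l : ℕ} (b : Fin l → ℕ) (m : ℕ → ℕ) (T : Set ℕ) : Set (Set (Fin l → ℂ)) :=
  {H | (∃ (i j : Fin l) (ζ : ℂ), i ≠ j ∧ b i = b j ∧ ζ ^ m (b i) = 1 ∧ H = {y | y i = ζ * y j}) ∨
    ∃ i, b i ∈ T ∧ H = {y | y i = 0}}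

theorem lin {l : ℕ} : ∃ L : Module.Dual ℂ (Fin l → ℂ) →ₗ[ℂ] MvPolynomial (Fin l) ℂ,
    (∀ φ y, eval y (L φ) = φ y) ∧ ∀ f, f.IsHomogeneous 1 → ∃ φ, L φ = f := by
  refine ⟨∑ i, (Module.Dual.eval ℂ _ (Pi.single i 1)).smulRight (X i), fun φ y => ?_,
    fun f hf => ?_⟩
  · conv_rhs => rw [pi_eq_sum_univ' y]
    simp [mul_comm]
  · induction hf using IsWeightedHomogeneous.induction_on with
    | zero => exact ⟨0, map_zero _⟩
    | add p q _ _ hp hq =>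
      obtain ⟨a, rfl⟩ := hp
      obtain ⟨b, rfl⟩ := hq
      exact ⟨a + b, map_add _ _ _⟩
    | monomial d r hr =>
      obtain ⟨i, rfl⟩ : d ∈ Set.range fun a => Finsupp.single a 1 := by
        rw [Finsupp.range_single_one, Finsupp.degree_eq_weight_one]; exact hr
      exact ⟨r • LinearMap.proj i, by
        simp [Pi.single_apply, ite_smul, -smul_eq_C_mul, ← C_mul_X_eq_monomial, C_mul']⟩

theorem P_eq {l : ℕ} {α β : MvPolynomial (Fin l) ℂ} (hα : α.IsHomogeneous 1)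
    (hβ : β.IsHomogeneous 1) :
    P ({y | eval y α = 0} ∩ {y | eval y β = 0}) = Ideal.span {α, β} := by
  refine le_antisymm (Ideal.span_le.2 fun f hf => ?_) (Ideal.span_mono ?_)
  · obtain ⟨L, h1, h2⟩ := lin (l := l)
    obtain ⟨a, rfl⟩ := h2 α hα
    obtain ⟨b, rfl⟩ := h2 β hβ
    obtain ⟨c, rfl⟩ := h2 f hf.1
    have := mem_span_of_iInf_ker_le_ker (L := ![a, b]) (K := c) fun y hy => by
      simpa [h1] using hf.2 y (by simpa [h1, Fin.forall_fin_two] using hy)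
    obtain ⟨u, v, rfl⟩ := Submodule.mem_span_pair.1 (by simpa [Set.pair_comm] using this)
    exact Ideal.mem_span_pair.2 ⟨C u, C v, by simp [smul_eq_C_mul]⟩
  · rintro _ (rfl | rfl)
    exacts [⟨hα, fun _ h => h.1⟩, ⟨hβ, fun _ h => h.2⟩]

theorem symb_eq {l : ℕ} {A : Set (MvPolynomial (Fin l) ℂ)} (hA : ∀ α ∈ A, α.IsHomogeneous 1)
    (n : ℕ) : symb ((fun α => {y | eval y α = 0}) '' A) n = H76m.Js A n := by
  have h : ∀ α ∈ A, ∀ β ∈ A, {y | eval y α = 0} = {y | eval y β = 0} ↔ Associated α β := by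
    have t : ∀ α ∈ A, ∀ β ∈ A, {y | eval y α = 0} = {y | eval y β = 0} → α ∣ β := by
      intro α hα β hβ e
      have := (P_eq (hA α hα) (hA α hα)).le (Ideal.subset_span ⟨hA β hβ, fun y hy => e.le hy.1⟩)
      simpa [Ideal.mem_span_singleton] using this
    exact fun α hα β hβ => ⟨fun e => associated_of_dvd_dvd (t α hα β hβ e) (t β hβ α hα e.symm),
      fun e => Set.ext fun y => (e.map (eval y)).eq_zero_iff⟩
  ext f
  simp only [symb, Submodule.mem_iInf, H76m.mem_Js]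
  constructor
  · intro H α hα β hβ hn
    exact P_eq (hA α hα) (hA β hβ) ▸
      H _ ⟨_, ⟨α, hα, rfl⟩, _, ⟨β, hβ, rfl⟩, mt (h α hα β hβ).1 hn, rfl⟩
  · rintro H _ ⟨_, ⟨α, hα, rfl⟩, _, ⟨β, hβ, rfl⟩, hn, rfl⟩
    exact (P_eq (hA α hα) (hA β hβ)).symm ▸ H α hα β hβ (mt (h α hα β hβ).2 hn)

theorem result (l : ℕ) (b : Fin l → ℕ) (m : ℕ → ℕ) (T : Set ℕ) (hm : ∀ B, 1 ≤ m B)
    (r : ℕ) (hr : 1 ≤ r) (h2 : r = 2 → ∀ B ∉ T, 3 ≤ m B → {i | b i = B}.ncard ≤ 2) :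
    symb (arr b m T) (2 * r - 1) ≤ J (arr b m T) ^ r := by
  obtain ⟨s, rfl⟩ := Nat.exists_eq_add_of_le' hr
  let D : H76m.Dat (Fin l) (Fin l) ℕ := ⟨id, Function.injective_id, b, m, (· ∈ T)⟩
  have e : arr b m T = (fun α => {y | eval y α = 0}) '' D.Fm := by
    ext H
    constructor
    · rintro (⟨i, j, ζ, h1, h2, h3, rfl⟩ | ⟨i, h, rfl⟩)
      · exact ⟨_, ⟨i, j, ζ, ⟨h2.symm, Or.inl ⟨h1, h3⟩⟩, rfl⟩, by simp [H76m.Dat.fm, D, sub_eq_zero]⟩
      · exact ⟨_, ⟨i, i, 0, ⟨rfl, Or.inr ⟨rfl, rfl, h⟩⟩, rfl⟩, by simp [H76m.Dat.fm, D]⟩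
    · rintro ⟨_, ⟨i, j, ζ, ⟨h1, ⟨h2, h3⟩ | ⟨rfl, rfl, h⟩⟩, rfl⟩, rfl⟩
      · exact Or.inl ⟨i, j, ζ, h2, h1.symm, h3, by simp [H76m.Dat.fm, D, sub_eq_zero]⟩
      · exact Or.inr ⟨i, h, by simp [H76m.Dat.fm, D]⟩
  have hA : ∀ α ∈ D.Fm, α.IsHomogeneous 1 := by
    rintro _ ⟨i, j, ζ, -, rfl⟩
    exact (isHomogeneous_X _ _).sub ((isHomogeneous_X _ _).C_mul _)
  rw [show J (arr b m T) = symb (arr b m T) 1 by simp [J, symb], e, symb_eq hA, symb_eq hA,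
    show 2 * (s + 1) - 1 = 2 * s + 1 by omega]
  refine H76m.TOP D (fun _ => hm _) fun hs i hi hn => by_contra fun h => ?_
  have := h2 (by omega) _ hi (not_le.1 h)
  rw [show {j | b j = D.b i} = ↑(D.blk (D.b i)) by ext; simp [D], Set.ncard_coe_finset] at this
  exact absurd (hn.trans this) (by omega)

end Pool.Agent.Results.MP_761c50_ag.Monomial
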