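import Pool.Agent.MP_761c50_ag.Mg.SS_Free

open Pool.Agent.MP_761c50_ag.SS in
theorem Pool.Agent.Results.MP_761c50_ag.Supersolvable.result :
    ∀ Λ : Finset ℂ, (∀ ρ ∈ Λ, ρ ≠ 0 ∧ ρ ≠ 1 ∧ ρ ≠ -1) → 3 ≤ Λ.card →
      IsArr (famB3 Λ) ∧ (famB3 Λ).ncard = Λ.card + 9 ∧ Supersolvable (famB3 Λ) ∧
        IndFree 3 (famB3 Λ) ∧ ¬ symb (famB3 Λ) 3 ≤ singI (famB3 Λ) ^ 2 :=
  main
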